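import Pool.Agent.R838.IS.In7

set_option autoImplicit false

/-!
# MP_ca0a54_nt: small gaps between the zeros of zeta and of the de Bruijn-Newman family

`H t z` is the integral of `exp (t * u ^ 2) * Phi u * cos (z * u)` over `u > 0`, so that `H 0 z` is
`ξ(1/2 + i z / 2) / 8`: the zeros of `H 0` are the numbers `z` for which `1/2 + i z / 2` is a nontrivial zero
of zeta, and `Re z / 2` is its ordinate.  The mean spacing of the ordinates is `2π / log T`.

No hypothesis is assumed.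

* At times `t ≤ δ / log² T` the zeros of `H t` in `(T, 2T]` have as many close neighbours as those of zeta, up to a
  change of the distance by `ε` mean spacings and an error `ε T log T`.
* So, if `t(T) log² T → 0`, a positive proportion of the zeros of zeta have a neighbour at less than `L` mean spacings,
  if and only if this is true of `H (t T)`.  If it is true for `L = 1/2` and a single such function `t`, then Q1 holds.
* At times `t ≤ δ / log² T` a positive proportion of the zeros of `H t` have a neighbour at less than `c` mean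
  spacings, for every `c > 2/3`.
* If `t(T) log² T → ∞` and `t(T) log T` is bounded, then the proportion of the zeros of `H (t T)` with a neighbour at
  less than `λ` mean spacings tends to `0`, for every `λ < 1`.
-/

open Filter Topology

namespace Pool.Agent.Results.MP_ca0a54_nt.HeatFlowSmallGaps

/-- The de Bruijn-Newman kernel. -/
noncomputable def Phi (u : ℝ) : ℝ := ∑' n : ℕ,
  (2 * Real.pi ^ 2 * ((n : ℝ) + 1) ^ 4 * Real.exp (9 * u) -
    3 * Real.pi * ((n : ℝ) + 1) ^ 2 * Real.exp (5 * u)) *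
    Real.exp (-(Real.pi * ((n : ℝ) + 1) ^ 2 * Real.exp (4 * u)))

/-- The de Bruijn-Newman family: the integral of `exp (t u²) Φ(u) cos (z u)` over `u > 0`. -/
noncomputable def H (t : ℝ) (z : ℂ) : ℂ :=
  ∫ u in Set.Ioi (0 : ℝ), ((Real.exp (t * u ^ 2) * Phi u : ℝ) : ℂ) * Complex.cos (z * u)

/-- The nontrivial zeros of zeta with ordinate in `(T, 2T]` which are multiple or whose ordinate differs from that of
another zero by at most `lam` times `2π / log T`; a zero of order `m` gives `m` elements. -/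
def zetaClose (T lam : ℝ) : Set (ℂ × ℕ) :=
  {p | (0 < p.1.re ∧ p.1.re < 1 ∧ p.2 < analyticOrderNatAt riemannZeta p.1) ∧ (T < p.1.im ∧ p.1.im ≤ 2 * T) ∧
    (1 < analyticOrderNatAt riemannZeta p.1 ∨ ∃ w : ℂ, w ≠ p.1 ∧ riemannZeta w = 0 ∧ 0 < w.re ∧ w.re < 1 ∧
      0 < w.im ∧ |w.im - p.1.im| * Real.log T ≤ 2 * Real.pi * lam)}

/-- The same for `H t`, where `Re z / 2` is the ordinate. -/
def heatClose (t T lam : ℝ) : Set (ℂ × ℕ) :=
  {p | p.2 < analyticOrderNatAt (H t) p.1 ∧ (T < p.1.re / 2 ∧ p.1.re / 2 ≤ 2 * T) ∧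
    (1 < analyticOrderNatAt (H t) p.1 ∨ ∃ w : ℂ, w ≠ p.1 ∧ H t w = 0 ∧ 0 < w.re / 2 ∧
      |w.re / 2 - p.1.re / 2| * Real.log T ≤ 2 * Real.pi * lam)}

/-- A positive proportion of the zeros of zeta in `(T, 2T]` have a neighbour at distance at most `lam` mean spacings,
for some `lam < L`. -/
def ZetaSmallGaps (L : ℝ) : Prop := ∃ lam c : ℝ, lam < L ∧ 0 < c ∧
  ∀ᶠ T : ℝ in atTop, c * (T * Real.log T) ≤ ((zetaClose T lam).ncard : ℝ)

/-- The same for the functions `H (t T)`. -/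
def HeatSmallGaps (t : ℝ → ℝ) (L : ℝ) : Prop := ∃ lam c : ℝ, lam < L ∧ 0 < c ∧
  ∀ᶠ T : ℝ in atTop, c * (T * Real.log T) ≤ ((heatClose (t T) T lam).ncard : ℝ)

/-- multiplicity of `s` as a zero of the Riemann zeta function (order of vanishing at `s`) -/
noncomputable def zmult (s : ℂ) : ℕ := analyticOrderNatAt riemannZeta s

/-- the number of nontrivial zeros of `ζ` with ordinate in `(0, t]`, with multiplicity -/
noncomputable def NZ (t : ℝ) : ℕ :=
  ∑ᶠ s ∈ {s : ℂ | riemannZeta s = 0 ∧ 0 < s.re ∧ s.re < 1 ∧ 0 < s.im ∧ s.im ≤ t}, zmult s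

/-- for `n ≥ 1`: the `n`-th positive ordinate of a nontrivial zero of `ζ`, the ordinates being
listed in nondecreasing order and repeated according to multiplicity -/
noncomputable def ord (n : ℕ) : ℝ := sInf {t : ℝ | n ≤ NZ t}

/-- Q1 of the problem. -/
def Q1 : Prop := ∃ δ T₀ : ℝ, 0 < δ ∧ ∀ T : ℝ, T₀ ≤ T →
  ∃ n : ℕ, 1 ≤ n ∧ T ≤ ord n ∧ ord n ≤ ord (n + 1) ∧ ord (n + 1) ≤ 2 * T ∧
    ord (n + 1) - ord n < (1 / 2 - δ) * (2 * Real.pi / Real.log T)

theorem result :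
    (∀ A ε : ℝ, 0 < ε → ∃ δ T₀ : ℝ, 0 < δ ∧ ∀ T t lam : ℝ, T₀ ≤ T → 0 ≤ t → t ≤ δ / Real.log T ^ 2 →
      0 ≤ lam → lam ≤ A →
      ((zetaClose T lam).ncard : ℝ) ≤ ((heatClose t T (lam + ε)).ncard : ℝ) + ε * (T * Real.log T) ∧
      ((heatClose t T lam).ncard : ℝ) ≤ ((zetaClose T (lam + ε)).ncard : ℝ) + ε * (T * Real.log T)) ∧
    (∀ t : ℝ → ℝ, (∀ T, 0 ≤ t T) → Tendsto (fun T => t T * Real.log T ^ 2) atTop (𝓝 0) →
      (∀ L : ℝ, 0 < L → (ZetaSmallGaps L ↔ HeatSmallGaps t L)) ∧ (HeatSmallGaps t (1 / 2) → Q1)) ∧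
    (∀ c : ℝ, 2 / 3 < c → ∃ κ δ T₀ : ℝ, 0 < κ ∧ 0 < δ ∧ ∀ T t : ℝ, T₀ ≤ T → 0 ≤ t → t ≤ δ / Real.log T ^ 2 →
      κ * (T * Real.log T) ≤ ((heatClose t T c).ncard : ℝ)) ∧
    (∀ (t : ℝ → ℝ) (A : ℝ), (∀ᶠ T in atTop, t T * Real.log T ≤ A) →
      Tendsto (fun T => t T * Real.log T ^ 2) atTop atTop → ∀ lam : ℝ, lam < 1 → ∀ η : ℝ, 0 < η →
      ∀ᶠ T : ℝ in atTop, ((heatClose (t T) T lam).ncard : ℝ) ≤ η * (T * Real.log T)) := by
  refine ⟨fun A ε hε => ?_, fun t ht ht2 => ?_, fun c hc => ?_, fun t A hA ht lam hlam η hη => ?_⟩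
  · obtain ⟨δ, T0, hδ, -, h⟩ := Pool.Agent.R838.IS.cmpD (max A 0) (le_max_right _ _) ε hε
    exact ⟨δ, T0, hδ, fun T t lam h1 h2 h3 h4 h5 => h T t lam h1 h2 h3 h4 (h5.trans (le_max_left _ _))⟩
  · have h := fun (L : ℝ) (hL : 0 < L) => Pool.Agent.R838.IS.pp_equiv ht ht2 hL
    exact ⟨h, fun h1 => Pool.Agent.R838.IS.pp_q1 (by norm_num) ((h (1 / 2) (by norm_num)).2 h1)⟩
  · exact Pool.Agent.R838.IS.pos_Ch hc
  · exact Pool.Agent.R838.IS.close_large hA ht hlam hη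

end Pool.Agent.Results.MP_ca0a54_nt.HeatFlowSmallGaps
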