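import Pool.Agent.Results.MP_ca0a54_nt.AlmostAllIntervals
import Pool.Agent.R770.LG.Meas2

/-!
# Small gaps between zeta zeros in ALL short intervals at the powers of almost every number

Let `f_n` be positive functions on `(a, ∞)`, `a ≥ 0`, such that `f_n(x) / x` is nondecreasing, `f_n(x) → ∞` and the sum of
the `1 / (log f_n(x)) ^ B` converges (for instance `f_n(x) = x ^ n`, `x ^ (n ^ s)`, `x ^ (3 ^ n)`, the orbits of `x² + 1`).
Let `0 ≤ θ < 1` and `c > 2 / (3 + θ)`. For almost every `α > a`, for all but finitely many `n`, the interval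
`[t, t + t ^ θ (log t) ^ (B + 41)]`, `t = f_n(α)`, contains two consecutive ordinates of zeros of `ζ` at distance less than
`c` times the mean spacing `2π / log t`.
-/

set_option autoImplicit false

namespace Pool.Agent.Results.MP_ca0a54_nt.StarshapedIntervals

open MeasureTheory Filter Topology
open AlmostAllIntervals (ord gb)

/-- `[t, t + H]` contains two consecutive ordinates of zeros (listed with multiplicity) at distance less than `c` times the
mean spacing `2π / log t` -/
def SmallGap (c t H : ℝ) : Prop :=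
  ∃ m : ℕ, 1 ≤ m ∧ t ≤ ord m ∧ ord m ≤ ord (m + 1) ∧ ord (m + 1) ≤ t + H ∧
    ord (m + 1) - ord m < c * (2 * Real.pi / Real.log t)

/-- the functions `f n` are positive on `(a, ∞)`, `a ≥ 0`, and `f n x / x` is nondecreasing there -/
def Starshaped (a : ℝ) (f : ℕ → ℝ → ℝ) : Prop :=
  0 ≤ a ∧ ∀ n : ℕ, ∀ x y : ℝ, a < x → x ≤ y → 0 < f n x ∧ f n x / x ≤ f n y / y

lemma tendsto_phi (C : ℝ) :
    Tendsto (fun T : ℝ => (1 + C * (Real.log (Real.log T) / Real.log T)) * (1 + Real.log 2 / Real.log T)) atTop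
      (𝓝 1) := by
  have h1 : Tendsto (fun T : ℝ => Real.log (Real.log T) / Real.log T) atTop (𝓝 0) :=
    (Real.isLittleO_log_id_atTop.tendsto_div_nhds_zero).comp Real.tendsto_log_atTop
  have h2 : Tendsto (fun T : ℝ => Real.log 2 / Real.log T) atTop (𝓝 0) :=
    tendsto_const_nhds.div_atTop Real.tendsto_log_atTop
  have h3 := ((h1.const_mul C).const_add 1).mul (h2.const_add 1)
  simpa using h3

lemma gap_lt {C c θ T H t : ℝ} (hC : 0 < C) (hθ : 0 ≤ θ) (hc : 0 < c) (hT : 3 ≤ T) (hH : T ^ θ ≤ H) (ht1 : T ≤ t)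
    (ht2 : t ≤ 2 * T)
    (hφ : 2 / (3 + θ) * ((1 + C * (Real.log (Real.log T) / Real.log T)) * (1 + Real.log 2 / Real.log T)) < c) :
    gb C H T < c * (2 * Real.pi / Real.log t) := by
  have hT0 : 0 < T := by linarith
  have hl1 : 1 < Real.log T := by
    rw [Real.lt_log_iff_exp_lt hT0]
    have := Real.exp_one_lt_d9
    linarith
  set l : ℝ := Real.log T with hl
  have hl0 : 0 < l := by linarith
  set A : ℝ := 1 + C * (Real.log l / l) with hA
  have hA0 : 0 < A := by
    have : 0 ≤ Real.log l := Real.log_nonneg hl1.le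
    positivity
  have hTθ : 0 < T ^ θ := by positivity
  have hH0 : 0 < H := lt_of_lt_of_le hTθ hH
  have h1 : (3 + θ) * l ≤ Real.log (T ^ 3 * H) := by
    rw [Real.log_mul (by positivity) hH0.ne', Real.log_pow]
    have := Real.log_le_log hTθ hH
    rw [Real.log_rpow hT0] at this
    push_cast
    linarith
  have h2 : gb C H T ≤ 4 * Real.pi / ((3 + θ) * l) * A := by
    unfold gb
    apply mul_le_mul_of_nonneg_right _ hA0.le
    exact div_le_div_of_nonneg_left (by positivity) (by positivity) h1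
  have h2l : 0 < Real.log 2 := Real.log_pos (by norm_num)
  have h3 : Real.log t ≤ l + Real.log 2 := by
    have := Real.log_le_log (by linarith) ht2
    rw [Real.log_mul (by norm_num) hT0.ne'] at this
    linarith
  have h4 : 0 < Real.log t := Real.log_pos (by linarith)
  have h5 : c * (2 * Real.pi / (l + Real.log 2)) ≤ c * (2 * Real.pi / Real.log t) := by
    apply mul_le_mul_of_nonneg_left _ hc.le
    exact div_le_div_of_nonneg_left (by positivity) h4 h3
  refine h2.trans_lt (lt_of_lt_of_le ?_ h5)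
  have h6 : 4 * Real.pi / ((3 + θ) * l) * A =
      (2 / (3 + θ) * (A * (1 + Real.log 2 / l))) * (2 * Real.pi / (l + Real.log 2)) := by
    have h7 : l + Real.log 2 ≠ 0 := by positivity
    field_simp
    ring
  rw [h6]
  exact mul_lt_mul_of_pos_right hφ (by positivity)

/-- **Theorem.** (1) Let `f` be starshaped on `(a, ∞)`, `f_n(x) → ∞` and let the sum of `1 / (log f_n(x)) ^ B` converge for
`x > a`. Let `0 ≤ θ < 1`, `c > 2 / (3 + θ)`. For almost every `α > a` and all but finitely many `n` the interval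
`[t, t + t ^ θ (log t) ^ (B + 41)]`, `t = f_n(α)`, contains consecutive ordinates at distance less than `c` times the mean
spacing. (2) This applies to `f_n(x) = x ^ (v_n)`, `v_n ≥ 1`, on `(1, ∞)` if the sum of `1 / v_n ^ B` converges,
`B ≥ 1`. -/
theorem result :
    (∀ (a : ℝ) (f : ℕ → ℝ → ℝ) (B : ℕ) (θ c : ℝ), Starshaped a f →
      (∀ x : ℝ, a < x → Tendsto (fun n => f n x) atTop atTop) →
      (∀ x : ℝ, a < x → Summable fun n => 1 / Real.log (f n x) ^ B) → 0 ≤ θ → θ < 1 → 2 / (3 + θ) < c →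
      ∃ Z : Set ℝ, volume Z = 0 ∧ ∀ α : ℝ, a < α → α ∉ Z → ∃ n₀ : ℕ, ∀ n : ℕ, n₀ ≤ n →
        SmallGap c (f n α) ((f n α) ^ θ * Real.log (f n α) ^ (B + 41))) ∧
    (∀ (v : ℕ → ℝ) (B : ℕ), (∀ n, 1 ≤ v n) → 1 ≤ B → (Summable fun n => 1 / v n ^ B) →
      Starshaped 1 (fun n x => x ^ (v n)) ∧ (∀ x : ℝ, 1 < x → Tendsto (fun n => x ^ (v n)) atTop atTop) ∧
      (∀ x : ℝ, 1 < x → Summable fun n => 1 / Real.log (x ^ (v n)) ^ B)) := by
  constructor
  · intro a f B θ c hf hinf hsum hθ hθ1 hc
    have hc0 : 0 < c := lt_trans (by positivity) hc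
    obtain ⟨C, T0, hC, hmain⟩ := AlmostAllIntervals.result.1 (B + 2)
    set S : Set ℝ := {t | ¬ SmallGap c t (t ^ θ * Real.log t ^ (B + 41))} with hS
    -- the conditions for large `T`
    have e1 : ∀ᶠ T : ℝ in atTop,
        2 / (3 + θ) * ((1 + C * (Real.log (Real.log T) / Real.log T)) * (1 + Real.log 2 / Real.log T)) < c := by
      have h1 := (tendsto_phi C).const_mul (2 / (3 + θ))
      rw [mul_one] at h1
      exact h1.eventually_lt_const hc
    have e2 : ∀ᶠ T : ℝ in atTop, Real.log T ^ (B + 41) ≤ T ^ (1 - θ) := by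
      have h1 := isLittleO_log_rpow_rpow_atTop ((B + 41 : ℕ) : ℝ) (show 0 < 1 - θ by linarith)
      filter_upwards [h1.bound one_pos, eventually_ge_atTop (1 : ℝ)] with T h2 h3
      rw [one_mul, Real.rpow_natCast, Real.norm_of_nonneg (pow_nonneg (Real.log_nonneg h3) _),
        Real.norm_of_nonneg (by positivity)] at h2
      exact h2
    have e3 := (tendsto_pow_atTop_atTop_of_one_lt (one_lt_two : (1 : ℝ) < 2)).eventually
      ((e1.and e2).and ((eventually_ge_atTop T0).and (eventually_ge_atTop (3 : ℝ))))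
    obtain ⟨j₀, hj₀⟩ := eventually_atTop.1 e3
    obtain ⟨Z, hZ, h⟩ := Pool.Agent.R770.LG.star_log_ae hf.1 (f := f) hf.2 hinf B hsum S j₀ (by
      intro j hj
      obtain ⟨⟨g1, g2⟩, g3, g4⟩ := hj₀ j hj
      set T : ℝ := (2 : ℝ) ^ j with hT
      have hT0 : 0 < T := by linarith
      have hlT : 0 ≤ Real.log T := Real.log_nonneg (by linarith)
      have hTθ : 1 ≤ T ^ θ := Real.one_le_rpow (by linarith) hθ
      have hlog1 : 1 ≤ Real.log T := by
        rw [Real.le_log_iff_exp_le hT0]
        have := Real.exp_one_lt_d9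
        linarith
      refine (measure_mono ?_).trans (hmain T (T ^ θ * Real.log T ^ (B + 41)) g3 ?_ ?_)
      · rintro t ⟨ht, ht1, ht2⟩
        have ht2' : t ≤ 2 * T := by
          rw [pow_succ, mul_comm] at ht2
          exact ht2.le
        refine ⟨ht1, ht2', ?_⟩
        rintro ⟨m, h1, h2, h3, h4, h5⟩
        apply ht
        have h6 : T ^ θ * Real.log T ^ (B + 41) ≤ t ^ θ * Real.log t ^ (B + 41) := by
          apply mul_le_mul (Real.rpow_le_rpow hT0.le ht1 hθ) _ (by positivity) (by
            have : 0 < t := by linarith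
            positivity)
          exact pow_le_pow_left₀ hlT (Real.log_le_log hT0 ht1) _
        refine ⟨m, h1, h2, h3, h4.trans (by linarith), lt_of_le_of_lt h5 ?_⟩
        apply gap_lt hC hθ hc0 g4 _ ht1 ht2' g1
        have h7 : (1 : ℝ) ≤ Real.log T ^ (B + 41) := one_le_pow₀ hlog1
        calc T ^ θ = T ^ θ * 1 := (mul_one _).symm
          _ ≤ T ^ θ * Real.log T ^ (B + 41) := mul_le_mul_of_nonneg_left h7 (by linarith)
      · have h7 : 0 ≤ Real.log T ^ (B + 41) := by positivity
        calc Real.log T ^ (B + 2 + 39) = 1 * Real.log T ^ (B + 41) := by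
              rw [one_mul]
          _ ≤ T ^ θ * Real.log T ^ (B + 41) := mul_le_mul_of_nonneg_right hTθ h7
      · calc T ^ θ * Real.log T ^ (B + 41) ≤ T ^ θ * T ^ (1 - θ) := mul_le_mul_of_nonneg_left g2 (by linarith)
          _ = T := by
              rw [← Real.rpow_add hT0, add_sub_cancel, Real.rpow_one])
    refine ⟨Z, hZ, fun α hα hαZ => ?_⟩
    obtain ⟨n₀, hn₀⟩ := h α hα hαZ
    refine ⟨n₀, fun n hn => ?_⟩
    have h1 := hn₀ n hn
    rw [hS, Set.mem_ofPred_eq, not_not] at h1
    exact h1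
  · intro v B hv hB hs
    have hs' : Summable fun n => (v n) ^ (-(B : ℝ)) := by
      refine hs.congr fun n => ?_
      have := lt_of_lt_of_le one_pos (hv n)
      rw [Real.rpow_neg this.le, Real.rpow_natCast, one_div]
    have hB0 : (0 : ℝ) < B := by exact_mod_cast hB
    have hvinf : Tendsto v atTop atTop := by
      rw [tendsto_atTop]
      intro M
      exact Pool.Agent.R482.ST.large (fun n => lt_of_lt_of_le one_pos (hv n)) hB0 hs' M
    refine ⟨⟨zero_le_one, Pool.Agent.R482.ST.star_pow hv⟩, fun x hx => ?_, fun x hx => ?_⟩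
    · have hx0 : 0 < x := by linarith
      have h1 : Tendsto (fun n => Real.exp (Real.log x * v n)) atTop atTop :=
        Real.tendsto_exp_atTop.comp (hvinf.const_mul_atTop (Real.log_pos hx))
      refine h1.congr fun n => ?_
      rw [Real.rpow_def_of_pos hx0]
    · have hx0 : 0 < x := by linarith
      refine (hs.mul_left (1 / Real.log x ^ B)).congr fun n => ?_
      rw [Real.log_rpow hx0, mul_pow]
      field_simp

end Pool.Agent.Results.MP_ca0a54_nt.StarshapedIntervals
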