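import Pool.Agent.R133.AF.Dy

open Filter

namespace Pool.Agent.Results.MP_ca0a54_nt.TaylorCriterion

/-- multiplicity of `s` as a zero of the Riemann zeta function (order of vanishing at `s`) -/
noncomputable def zmult (s : ℂ) : ℕ := analyticOrderNatAt riemannZeta s

/-- the number of nontrivial zeros of `ζ` with ordinate in `(0, t]`, with multiplicity -/
noncomputable def NZ (t : ℝ) : ℕ :=
  ∑ᶠ s ∈ {s : ℂ | riemannZeta s = 0 ∧ 0 < s.re ∧ s.re < 1 ∧ 0 < s.im ∧ s.im ≤ t}, zmult s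

/-- for `n ≥ 1`: the `n`-th positive ordinate `γ_n` of a nontrivial zero of `ζ`, the ordinates being
listed in nondecreasing order and repeated according to multiplicity -/
noncomputable def ord (n : ℕ) : ℝ := sInf {t : ℝ | n ≤ NZ t}

/-- `ζ'''(s) / (3 ζ'(s)) - (ζ''(s) / (2 ζ'(s)))^2` -/
noncomputable def C3 (s : ℂ) : ℂ :=
  deriv (deriv (deriv riemannZeta)) s / (3 * deriv riemannZeta s) -
    (deriv (deriv riemannZeta) s / (2 * deriv riemannZeta s)) ^ 2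

/-- **A criterion for small gaps in terms of the Taylor coefficients of `ζ` at its zeros.**

(1) For all `c, ε > 0` and all large `T`: either two consecutive ordinates in `[T, 2T]` differ by at
most `c · 2π / log T`, or every nontrivial zero `ρ` with ordinate in `[T + 2, 2T - 2]` is simple, on
the critical line, and `|C3 ρ| ≤ (1 / (12 c^2) + ε) (log T)^2` (for `c = 1/2`: `1/3 + ε`).

(2) For all `L ≥ 0`, `ε > 0` and all large `T`: if every nontrivial zero `ρ` with ordinate in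
`[T - 2, 2T + 2]` is simple, on the critical line, and `|C3 ρ| ≤ L (log T)^2`, then consecutive
ordinates in `[T, 2T]` differ by at least `1 / (sqrt (L + ε) log T)`. -/
theorem result :
    (∀ c ε : ℝ, 0 < c → 0 < ε → ∃ T0 : ℝ, ∀ T : ℝ, T0 ≤ T →
      (∃ n : ℕ, 1 ≤ n ∧ T ≤ ord n ∧ ord (n + 1) ≤ 2 * T ∧
        ord (n + 1) - ord n ≤ c * (2 * Real.pi / Real.log T)) ∨
      ∀ s : ℂ, riemannZeta s = 0 → 0 < s.re → s.re < 1 → T + 2 ≤ s.im → s.im ≤ 2 * T - 2 →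
        s.re = 1 / 2 ∧ deriv riemannZeta s ≠ 0 ∧
          ‖C3 s‖ ≤ (1 / (12 * c ^ 2) + ε) * Real.log T ^ 2) ∧
    (∀ L ε : ℝ, 0 ≤ L → 0 < ε → ∃ T0 : ℝ, ∀ T : ℝ, T0 ≤ T →
      (∀ s : ℂ, riemannZeta s = 0 → 0 < s.re → s.re < 1 → T - 2 ≤ s.im → s.im ≤ 2 * T + 2 →
        s.re = 1 / 2 ∧ deriv riemannZeta s ≠ 0 ∧ ‖C3 s‖ ≤ L * Real.log T ^ 2) →
      ∀ n : ℕ, 1 ≤ n → T ≤ ord n → ord (n + 1) ≤ 2 * T →
        1 ≤ (L + ε) * ((ord (n + 1) - ord n) * Real.log T) ^ 2) :=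
  ⟨Pool.Agent.R133.AF.crit, Pool.Agent.R133.AF.crit_conv⟩

end Pool.Agent.Results.MP_ca0a54_nt.TaylorCriterion
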