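import Pool.Agent.R319.UM8

/-!
# In the unitary model, spacings at least half the mean spacing force the Alternative Hypothesis

The unitary model: random `N`-point sets on the unit circle whose moments `E[F(z) conj G(z)]`, for
symmetric polynomials `F`, `G` homogeneous of the same degree at most `N`, are those of the
eigenvalues of a Haar distributed unitary `N × N` matrix.  This is the finite form of all the known
(band-limited) information about the correlations of the zeros; Tao's discrete ensemble on the
`2N`-th roots of unity is an example, so the barrier `1/2` cannot be passed in the model.  It is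
proved that the barrier is attained only by the Alternative Hypothesis.

Idea of the proof.  Let `ω = exp (π i / N)` and `P(x) = ∏ (x - z_i)`.  The numbers
`τ_j = - P(ω z_j) / (z_j P'(z_j))` are real, and nonnegative if the points are separated by half
the mean spacing.  Let `A(x)` be the part of degree at most `N` of the power series of `x^N / P(x)`
in `1/x`.  By partial fractions `∑ τ_j |A(ω z_j)|²` is a combination of products `F conj G` with
`F`, `G` of the same degree at most `N`.  Its mean is zero, since this holds for the discrete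
ensemble.  Hence almost surely `P(ω z_j) A(ω z_j) = 0` for all `j`, and then the remainder `S` of
`x^{2N}` modulo `P`, of degree less than `N`, satisfies `S(ω z_j) = S(z_j)` for all `j`, so that it
is constant.
-/

open MeasureTheory

namespace Pool.Agent.Results.MP_ca0a54_nt.UnitaryModel

/-- the mean of `f` over the eigenvalues `z = (e^{iθ_1}, …, e^{iθ_N})` of a Haar distributed
unitary `N × N` matrix (Weyl's formula):
`(N! (2π)^N)⁻¹ ∫_{(0, 2π]^N} f(z) ∏_{i < j} |z_j - z_i|² dθ` -/
noncomputable def haarMean (N : ℕ) (f : (Fin N → ℂ) → ℂ) : ℂ :=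
  ((N.factorial : ℂ) * (2 * Real.pi) ^ N)⁻¹ *
    ∫ θ in Set.univ.pi fun _ : Fin N => Set.Ioc (0 : ℝ) (2 * Real.pi),
      f (fun j => Complex.exp (Complex.I * θ j)) *
        ((∏ i : Fin N, ∏ j ∈ Finset.Ioi i,
          ‖Complex.exp (Complex.I * θ j) - Complex.exp (Complex.I * θ i)‖ ^ 2 : ℝ) : ℂ)

/-- `ν` is the law of `N` points on the unit circle with the same moments `E[F(z) conj G(z)]` as
the eigenvalues of a Haar distributed unitary `N × N` matrix, for all symmetric polynomials `F`, `G`
that are homogeneous of the same degree at most `N` -/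
structure Mimics (N : ℕ) (ν : Measure (Fin N → ℂ)) : Prop where
  unit : ∀ᵐ z ∂ν, ∀ i, ‖z i‖ = 1
  moments : ∀ n ≤ N, ∀ F G : MvPolynomial (Fin N) ℂ, F.IsSymmetric → G.IsSymmetric →
    F.IsHomogeneous n → G.IsHomogeneous n →
    ∫ z, MvPolynomial.eval z F * (starRingEnd ℂ) (MvPolynomial.eval z G) ∂ν =
      haarMean N (fun z => MvPolynomial.eval z F * (starRingEnd ℂ) (MvPolynomial.eval z G))

/-- almost surely any two points are at angular distance at least `π / N`, half the mean
spacing -/
def Separated (N : ℕ) (ν : Measure (Fin N → ℂ)) : Prop :=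
  ∀ᵐ z ∂ν, ∀ i j, i ≠ j → ‖1 - Complex.exp (Complex.I * (Real.pi / N))‖ ≤ ‖z i - z j‖

/-- almost surely all the points are on one rotated copy of the grid of the `2N`-th roots of unity;
that is, all the spacings are multiples of `π / N`, half the mean spacing -/
def Lattice (N : ℕ) (ν : Measure (Fin N → ℂ)) : Prop :=
  ∀ᵐ z ∂ν, ∀ i j, z i ^ (2 * N) = z j ^ (2 * N)

lemma sep_iff (N : ℕ) (ν : Measure (Fin N → ℂ)) :
    Separated N ν ↔ ∀ᵐ z ∂ν, ∀ i j, i ≠ j → ‖1 - Pool.Agent.R319.UM.om N‖ ≤ ‖z i - z j‖ := by
  have h : ‖1 - Complex.exp (Complex.I * (Real.pi / N))‖ = ‖1 - Pool.Agent.R319.UM.om N‖ := by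
    have e : Pool.Agent.R319.UM.om N =
        (starRingEnd ℂ) (Complex.exp (Complex.I * (Real.pi / N))) := by
      unfold Pool.Agent.R319.UM.om
      rw [← Complex.exp_conj]
      congr 1
      simp only [map_mul, map_div₀, Complex.conj_I, Complex.conj_ofReal, Complex.conj_natCast]
      ring
    rw [e, ← Complex.norm_conj (1 - Complex.exp (Complex.I * (Real.pi / N))), map_sub, map_one]
  unfold Separated
  rw [h]

/-- **Theorem.** In the unitary model the following are equivalent: almost surely all the spacings
are at least half the mean spacing; almost surely all the spacings are multiples of half the mean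
spacing; the form factor `E |∑ z_j^k|²` has the extreme value `N²` at `k = 2N`. -/
theorem result (N : ℕ) (hN : 1 ≤ N) (ν : Measure (Fin N → ℂ)) [IsProbabilityMeasure ν]
    (hν : Mimics N ν) :
    (Separated N ν ↔ Lattice N ν) ∧
    (Separated N ν ↔ ∫ z, ‖∑ j, z j ^ (2 * N)‖ ^ 2 ∂ν = (N : ℝ) ^ 2) := by
  have hm : Pool.Agent.R319.UM.Moments N ν := hν.moments
  have h1 : Separated N ν ↔ Lattice N ν := by
    rw [sep_iff]
    exact Pool.Agent.R319.UM.main hN hν.unit hm
  exact ⟨h1, h1.trans (Pool.Agent.R319.UM.lat_iff_mom hν.unit)⟩

end Pool.Agent.Results.MP_ca0a54_nt.UnitaryModel
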